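import Pool.Agent.LSoup.Assembly

/-!
# Chemical distance in the supercritical planar random walk loop soup

All notions of the statement are defined in this file: the boxes `V N`, their inner boundary, the
continuous time loops and the loop measure, Poisson point processes, open edges and the chemical
distance.
-/

open MeasureTheory ProbabilityTheory Filter Topology

open scoped Classical ENNReal

noncomputable section

namespace Pool.Agent.Results.MP_74b926_pr.ChemicalDistance

/-- The `N × N` box in `ℤ²` centred at the origin (`N` odd) or at `(1/2, 1/2)` (`N` even). -/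
def V (N : ℕ) : Finset (ℤ × ℤ) :=
  (Finset.Icc (-(N : ℤ)) N ×ˢ Finset.Icc (-(N : ℤ)) N).filter fun x =>
    -(N : ℤ) < 2 * x.1 ∧ 2 * x.1 ≤ N ∧ -(N : ℤ) < 2 * x.2 ∧ 2 * x.2 ≤ N

/-- Nearest neighbours in `ℤ²`. -/
def Nb (x y : ℤ × ℤ) : Prop := |x.1 - y.1| + |x.2 - y.2| = 1

/-- The inner boundary of `V N`. -/
def bdV (N : ℕ) : Finset (ℤ × ℤ) := (V N).filter fun x => ∃ y : ℤ × ℤ, y ∉ V N ∧ Nb x y

/-- The points of `V N` off the inner boundary, where the jump process is alive. -/
def VI (N : ℕ) : Finset (ℤ × ℤ) := V N \ bdV N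

/-- A rooted loop in continuous time is given by its number `n` of jumps, its successive
positions `x 0, …, x n` (with `x n = x 0`) and the times `h 0, …, h n` spent there. -/
abbrev Loop : Type := Σ n : ℕ, (Fin (n + 1) → ℤ × ℤ) × (Fin (n + 1) → ℝ)

/-- The successive positions of a nearest neighbour loop with `n` jumps in `D`. -/
def IsSkel (D : Finset (ℤ × ℤ)) (n : ℕ) (x : Fin (n + 1) → ℤ × ℤ) : Prop :=
  x (Fin.last n) = x 0 ∧ (∀ i, x i ∈ D) ∧ ∀ i : Fin n, Nb (x i.castSucc) (x i.succ)

/-- The loop measure `∑ x, ∫ ℙ^t_{x,x} p_t(x,x) dt / t` of the process that jumps to each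
neighbour at rate `1` and is killed when it leaves `D`.  On the loops with `n` jumps the process
started from `x 0` up to time `t` has density `exp (-4 t)` with respect to counting measure of the
positions and Lebesgue measure of the jump times; in terms of the holding times
`h 0, …, h n > 0`, `t = ∑ h i`, and `dt / t` gives the density `exp (-4 t) / t` with respect to
Lebesgue measure `dh 0 ⋯ dh n`. -/
def loopMeasure (D : Finset (ℤ × ℤ)) : Measure Loop :=
  Measure.sum fun n : ℕ => Measure.map (Sigma.mk n)
    ((Measure.count.restrict {x : Fin (n + 1) → ℤ × ℤ | IsSkel D n x}).prod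
      ((volume.restrict {h : Fin (n + 1) → ℝ | ∀ i, 0 < h i}).withDensity fun h =>
        ENNReal.ofReal (Real.exp (-4 * ∑ i, h i) / ∑ i, h i)))

/-- `L` is a Poisson point process with intensity measure `ν` on the probability space
`(Ω, P)`: a random measure such that the masses of disjoint measurable sets are independent and
the mass of a set `A` with `ν A < ∞` is a Poisson variable with mean `ν A`. -/
structure IsPoissonProcess {Ω S : Type} [MeasurableSpace Ω] [MeasurableSpace S] (P : Measure Ω)
    (ν : Measure S) (L : Ω → Measure S) : Prop where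
  meas : ∀ A, MeasurableSet A → Measurable fun ω => L ω A
  poisson : ∀ A, MeasurableSet A → ν A ≠ ∞ → P.map (fun ω => L ω A) =
    (poissonMeasure (ν A).toNNReal).map fun k : ℕ => (k : ℝ≥0∞)
  indep : ∀ (ι : Type) [Fintype ι] (A : ι → Set S), (∀ i, MeasurableSet (A i)) →
    Pairwise (fun i j => Disjoint (A i) (A j)) → iIndepFun (fun i ω => L ω (A i)) P

/-- The loops that jump from `x` to `y` or from `y` to `x`, that is, traverse the edge `xy`. -/
def Crosses (x y : ℤ × ℤ) : Set Loop :=
  {l | ∃ i : Fin l.1, (l.2.1 i.castSucc = x ∧ l.2.1 i.succ = y) ∨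
    (l.2.1 i.castSucc = y ∧ l.2.1 i.succ = x)}

/-- The graph of the open edges of the collection of loops `m`: the edges traversed by at least
one loop. -/
def openG (m : Measure Loop) : SimpleGraph (ℤ × ℤ) :=
  SimpleGraph.fromRel fun x y => Nb x y ∧ m (Crosses x y) ≠ 0

/-- The distance between the sets `A` and `B` in the graph `G` (`⊤` if no path joins them). -/
def chem (G : SimpleGraph (ℤ × ℤ)) (A B : Finset (ℤ × ℤ)) : ℕ∞ :=
  ⨅ u ∈ A, ⨅ v ∈ B, G.edist u v

/-- For every `a > 1/2`, `0 < α < β < 1` and `ε > 0`: the chemical distance between the inner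
boundaries of `V_{αN}` and `V_{βN}` in the random walk loop soup of intensity `a` in `V_N` is at
most `N^{1+ε}` with probability tending to `1`. -/
theorem result (a α β ε : ℝ) (ha : 1 / 2 < a) (hα : 0 < α) (hαβ : α < β) (hβ : β < 1)
    (hε : 0 < ε) (Ω : ℕ → Type) [∀ N, MeasurableSpace (Ω N)] (P : ∀ N, Measure (Ω N))
    [∀ N, IsProbabilityMeasure (P N)] (L : ∀ N, Ω N → Measure Loop)
    (hL : ∀ N, IsPoissonProcess (P N) (ENNReal.ofReal a • loopMeasure (VI N)) (L N)) :
    Tendsto (fun N : ℕ => (P N) {ω | (chem (openG (L N ω)) (bdV ⌊α * N⌋₊) (bdV ⌊β * N⌋₊) : ℝ≥0∞)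
      ≤ ENNReal.ofReal ((N : ℝ) ^ (1 + ε))}) atTop (𝓝 1) :=
  LSoup.assembled a α β ε ha hα hαβ hβ hε Ω inferInstance P L inferInstance
    fun N => ⟨(hL N).meas, (hL N).poisson, (hL N).indep⟩

end Pool.Agent.Results.MP_74b926_pr.ChemicalDistance
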